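import Pool.Agent.U265.MS.Tw

/-!
# Tuples of fundamental discriminants with a bad subproduct (helper265)
-/

set_option autoImplicit false

namespace Pool.Agent.U265.MT

open Finset Filter Topology Pool.Agent.U61.JS Pool.Agent.U265.MS
open Pool.Agent.Y549.SP (primesIn Thick oq)

lemma fund_unique {z z' x y : ℤ} (hF : Fund z) (hF' : Fund z') (hx : x ≠ 0) (hy : y ≠ 0)
    (h : z * x ^ 2 = z' * y ^ 2) : z = z' := by
  refine disc_unique (m := z * x ^ 2) ⟨hF, 2 * x, mul_ne_zero two_ne_zero hx, by ring⟩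
    ⟨hF', 2 * y, mul_ne_zero two_ne_zero hy, ?_⟩
  rw [h]
  ring

/-- few fundamental discriminants with a small twist -/
lemma small_twist {P : ℤ} (hP : P ≠ 0) {Z : ℝ} (hZ : 1 ≤ Z) (T : Finset ℤ)
    (hT : ∀ z ∈ T, Fund z ∧ ∃ D j : ℤ, j ≠ 0 ∧ |(D : ℝ)| < Z ∧ 4 * (P * z) = D * j ^ 2) :
    (T.card : ℝ) ≤ 3 * Z := by
  classical
  choose! D hD using fun z (hz : z ∈ T) => (hT z hz).2
  have h1 : T.card ≤ (Icc (-(⌊Z⌋₊ : ℤ)) ⌊Z⌋₊).card := by
    refine card_le_card_of_injOn D ?_ ?_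
    · intro z hz
      rw [mem_coe] at hz
      obtain ⟨j, -, h3, -⟩ := hD z hz
      have h4 : (D z).natAbs ≤ ⌊Z⌋₊ := by
        apply Nat.le_floor
        rw [Nat.cast_natAbs, Int.cast_abs]
        exact h3.le
      rw [mem_coe, mem_Icc]
      omega
    · intro z hz z' hz' heq
      rw [mem_coe] at hz hz'
      obtain ⟨j, hj, -, h3⟩ := hD z hz
      obtain ⟨j', hj', -, h3'⟩ := hD z' hz'
      refine fund_unique (hT z hz).1 (hT z' hz').1 hj' hj ?_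
      have h4 : (4 * P) * (z * j' ^ 2) = (4 * P) * (z' * j ^ 2) := by
        calc (4 * P) * (z * j' ^ 2) = (4 * (P * z)) * j' ^ 2 := by ring
          _ = D z * j ^ 2 * j' ^ 2 := by rw [h3]
          _ = D z' * j' ^ 2 * j ^ 2 := by rw [heq]; ring
          _ = (4 * (P * z')) * j ^ 2 := by rw [h3']
          _ = _ := by ring
      exact mul_left_cancel₀ (mul_ne_zero (by norm_num) hP) h4
  rw [Int.card_Icc] at h1
  have h4 : ((⌊Z⌋₊ : ℤ) + 1 - -(⌊Z⌋₊ : ℤ)).toNat = 2 * ⌊Z⌋₊ + 1 := by omega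
  rw [h4] at h1
  have h5 : (⌊Z⌋₊ : ℝ) ≤ Z := Nat.floor_le (by linarith)
  have h6 : (T.card : ℝ) ≤ 2 * ⌊Z⌋₊ + 1 := by exact_mod_cast h1
  linarith

/-- the bad tuples of fundamental discriminants at the level `X` -/
def BadF {k : ℕ} (A c θ : ℝ) (X : ℕ) (d : Fin k → ℤ) : Prop :=
  ∃ S : Finset (Fin k), S.Nonempty ∧
    ((∃ D j : ℤ, j ≠ 0 ∧ |(D : ℝ)| < (X : ℝ) ^ θ ∧ 4 * ∏ i ∈ S, d i = D * j ^ 2) ∨
      ∃ y : ℕ, Real.log (8 * X) ^ A ≤ y ∧ (y : ℝ) ≤ (X : ℝ) ^ c ∧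
        1 / 4 * (primesIn Set.univ y).ncard < |(js Set.univ (∏ i ∈ S, d i) y : ℝ)|)

/-- the number of the bad tuples of fundamental discriminants -/
theorem fund_joint (k : ℕ) (hk : 1 ≤ k) (e : ℝ) (he : 0 < e) :
    ∃ A c K : ℝ, 0 < c ∧ 0 < K ∧ ∀ X : ℕ, 1 ≤ X → ∀ T : Finset (Fin k → ℤ),
      (∀ d ∈ T, (∀ i, Fund (d i) ∧ |d i| ≤ X) ∧ BadF A c e X d) →
      (T.card : ℝ) ≤ K * (X : ℝ) ^ ((k : ℝ) - 1 + e) := by
  classical
  obtain ⟨n, rfl⟩ : ∃ n, k = n + 1 := ⟨k - 1, by omega⟩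
  obtain ⟨A, hA⟩ : ∃ A : ℝ, A = 2 / e + 2 := ⟨_, rfl⟩
  have hA2 : 2 ≤ A := by rw [hA]; have : 0 ≤ 2 / e := by positivity
                         linarith
  have hA0 : 0 < A := by linarith
  have hiA : 1 / A < e := by
    rw [div_lt_iff₀ hA0, hA]
    have : e * (2 / e + 2) = 2 + 2 * e := by field_simp
    rw [this]
    linarith
  obtain ⟨c, K₀, hc, hK₀, hT₀⟩ := twist A 1 (1 / 4) (e - 1 / A) Set.univ one_pos le_rfl (by linarith)
    (by norm_num) (by linarith) Pool.Agent.Y549.SP.Fin2.thick_univ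
  have e1 : 1 - 1 + 1 / A + (e - 1 / A) = e := by ring
  rw [e1] at hT₀
  obtain ⟨G, hG⟩ : ∃ G : ℝ, G = 2 ^ (n + 1) * (3 ^ (n + 1) * (3 + K₀)) := ⟨_, rfl⟩
  have hG0 : 0 < G := by rw [hG]; positivity
  refine ⟨A, c, G, hc, hG0, ?_⟩
  intro X hX T hT
  have hX1 : (1 : ℝ) ≤ X := by exact_mod_cast hX
  have hXp : (0 : ℝ) < X := by linarith
  have ek : (((n + 1 : ℕ) : ℝ)) - 1 + e = n + e := by push_cast; ring
  rw [ek]
  have hIc : ((Icc (-(X : ℤ)) X).card : ℝ) = 2 * X + 1 := by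
    rw [Int.card_Icc]
    have : ((X : ℤ) + 1 - -(X : ℤ)).toNat = 2 * X + 1 := by omega
    rw [this]
    push_cast
    ring
  have hIm : ∀ m ∈ T, ∀ i, m i ∈ Icc (-(X : ℤ)) X := by
    intro m hm i
    have := ((hT m hm).1 i).2
    rw [abs_le] at this
    rw [mem_Icc]
    exact this
  have hprod : ∀ (S : Finset (Fin (n + 1))) (i₀ : Fin (n + 1)), i₀ ∈ S → ∀ (z : ℤ) (o : Fin n → ℤ),
      ∏ i ∈ S, (i₀.insertNth z o : Fin (n + 1) → ℤ) i =
        (∏ i ∈ S.erase i₀, (i₀.insertNth (1 : ℤ) o : Fin (n + 1) → ℤ) i) * z := by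
    intro S i₀ hi₀ z o
    rw [← Finset.prod_erase_mul _ _ hi₀, Fin.insertNth_apply_same]
    congr 1
    refine prod_congr rfl fun i hi => ?_
    have hne : i ≠ i₀ := (mem_erase.1 hi).1
    obtain ⟨j, rfl⟩ := Fin.exists_succAbove_eq hne
    rw [Fin.insertNth_apply_succAbove, Fin.insertNth_apply_succAbove]
  set T₁ : Finset (Fin (n + 1)) → Finset (Fin (n + 1) → ℤ) := fun S =>
    T.filter (fun d => ∃ D j : ℤ, j ≠ 0 ∧ |(D : ℝ)| < (X : ℝ) ^ e ∧ 4 * ∏ i ∈ S, d i = D * j ^ 2) with hT₁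
  set T₂ : Finset (Fin (n + 1)) → Finset (Fin (n + 1) → ℤ) := fun S =>
    T.filter (fun d => ∃ y : ℕ, Real.log (8 * X) ^ A ≤ y ∧ (y : ℝ) ≤ (X : ℝ) ^ c ∧
        1 / 4 * (primesIn Set.univ y).ncard < |(js Set.univ (∏ i ∈ S, d i) y : ℝ)|) with hT₂
  have hsub : T ⊆ ((univ : Finset (Finset (Fin (n + 1)))).erase ∅).biUnion (fun S => T₁ S ∪ T₂ S) := by
    intro d hd
    obtain ⟨-, S, hS, h⟩ := hT d hd
    rw [mem_biUnion]
    refine ⟨S, mem_erase.2 ⟨nonempty_iff_ne_empty.1 hS, mem_univ _⟩, ?_⟩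
    rw [mem_union]
    rcases h with h | h
    · exact Or.inl (mem_filter.2 ⟨hd, h⟩)
    · exact Or.inr (mem_filter.2 ⟨hd, h⟩)
  have h31 : (2 * (X : ℝ) + 1) ^ n ≤ 3 ^ (n + 1) * (X : ℝ) ^ (n : ℝ) := by
    rw [Real.rpow_natCast]
    calc (2 * (X : ℝ) + 1) ^ n ≤ (3 * X) ^ n := pow_le_pow_left₀ (by positivity) (by linarith) _
      _ = 3 ^ n * (X : ℝ) ^ n := mul_pow _ _ _
      _ ≤ 3 ^ (n + 1) * (X : ℝ) ^ n := by
          refine mul_le_mul_of_nonneg_right ?_ (by positivity)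
          exact pow_le_pow_right₀ (by norm_num) (by omega)
  have hxe : (X : ℝ) ^ (n : ℝ) * (X : ℝ) ^ e = (X : ℝ) ^ (n + e) := by rw [← Real.rpow_add hXp]
  have hfin : ∀ (F : Finset (Fin (n + 1) → ℤ)) (C : ℝ), 0 ≤ C →
      (F.card : ℝ) ≤ ((Icc (-(X : ℤ)) X).card : ℝ) ^ n * (C * (X : ℝ) ^ e) →
      (F.card : ℝ) ≤ 3 ^ (n + 1) * C * (X : ℝ) ^ (n + e) := by
    intro F C hC h1
    rw [hIc] at h1
    calc (F.card : ℝ) ≤ (2 * X + 1) ^ n * (C * (X : ℝ) ^ e) := h1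
      _ ≤ (3 ^ (n + 1) * (X : ℝ) ^ (n : ℝ)) * (C * (X : ℝ) ^ e) :=
          mul_le_mul_of_nonneg_right h31 (by positivity)
      _ = 3 ^ (n + 1) * C * ((X : ℝ) ^ (n : ℝ) * (X : ℝ) ^ e) := by ring
      _ = _ := by rw [hxe]
  have hXe : (1 : ℝ) ≤ (X : ℝ) ^ e := Real.one_le_rpow hX1 he.le
  have hb1 : ∀ S ∈ (univ : Finset (Finset (Fin (n + 1)))).erase ∅,
      ((T₁ S).card : ℝ) ≤ 3 ^ (n + 1) * 3 * (X : ℝ) ^ (n + e) := by
    intro S hS
    obtain ⟨i₀, hi₀⟩ := nonempty_iff_ne_empty.2 (mem_erase.1 hS).1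
    refine hfin _ 3 (by norm_num) ?_
    refine fiber_count n i₀ _ _ _ ?_ ?_
    · intro m hm j
      rw [hT₁] at hm
      exact hIm m (mem_filter.1 hm).1 j
    · intro o
      by_cases hP : ∏ i ∈ S.erase i₀, (i₀.insertNth (1 : ℤ) o : Fin (n + 1) → ℤ) i = 0
      · rw [filter_false_of_mem, card_empty]
        · push_cast
          positivity
        · intro z _ hz
          rw [hT₁] at hz
          have h2 := (hT _ (mem_filter.1 hz).1).1
          obtain ⟨i, hi, hi0⟩ := prod_eq_zero_iff.1 hP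
          have hne : i ≠ i₀ := (mem_erase.1 hi).1
          obtain ⟨j, rfl⟩ := Fin.exists_succAbove_eq hne
          rw [Fin.insertNth_apply_succAbove] at hi0
          have h3 := (h2 (i₀.succAbove j)).1
          rw [Fin.insertNth_apply_succAbove] at h3
          exact fund_ne h3 hi0
      · refine small_twist hP hXe _ ?_
        intro z hz
        rw [mem_filter] at hz
        obtain ⟨-, hz1⟩ := hz
        rw [hT₁] at hz1
        obtain ⟨hz2, D, j, hj, hD, h4⟩ := mem_filter.1 hz1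
        have hz4 := ((hT _ hz2).1 i₀).1
        rw [Fin.insertNth_apply_same] at hz4
        rw [hprod S i₀ hi₀] at h4
        exact ⟨hz4, D, j, hj, hD, h4⟩
  have hb2 : ∀ S ∈ (univ : Finset (Finset (Fin (n + 1)))).erase ∅,
      ((T₂ S).card : ℝ) ≤ 3 ^ (n + 1) * K₀ * (X : ℝ) ^ (n + e) := by
    intro S hS
    obtain ⟨i₀, hi₀⟩ := nonempty_iff_ne_empty.2 (mem_erase.1 hS).1
    refine hfin _ K₀ hK₀.le ?_
    refine fiber_count n i₀ _ _ _ ?_ ?_
    · intro m hm j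
      rw [hT₂] at hm
      exact hIm m (mem_filter.1 hm).1 j
    · intro o
      obtain ⟨D, hD⟩ : ∃ D : ℤ, D = ∏ i ∈ S.erase i₀, (i₀.insertNth (1 : ℤ) o : Fin (n + 1) → ℤ) i := ⟨_, rfl⟩
      refine hT₀ D X hX _ ?_
      intro z hz
      rw [mem_filter] at hz
      obtain ⟨-, hz1⟩ := hz
      rw [hT₂] at hz1
      obtain ⟨hz2, y, hy1, hy2, hy3⟩ := mem_filter.1 hz1
      have hz4 := (hT _ hz2).1 i₀
      rw [Fin.insertNth_apply_same] at hz4
      refine ⟨hz4, y, ?_, hy2, ?_⟩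
      · refine le_trans (Real.rpow_le_rpow (Real.log_nonneg hX1) ?_ hA0.le) hy1
        exact Real.log_le_log hXp (by linarith)
      · rw [hprod S i₀ hi₀, ← hD] at hy3
        exact hy3
  have h1 := (card_le_card hsub).trans card_biUnion_le
  have h2 : (T.card : ℝ) ≤ ∑ S ∈ (univ : Finset (Finset (Fin (n + 1)))).erase ∅, ((T₁ S ∪ T₂ S).card : ℝ) := by
    exact_mod_cast h1
  refine h2.trans ((sum_le_card_nsmul _ _ (3 ^ (n + 1) * (3 + K₀) * (X : ℝ) ^ (n + e)) fun S hS => ?_).trans ?_)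
  · have h3 : ((T₁ S ∪ T₂ S).card : ℝ) ≤ (T₁ S).card + (T₂ S).card := by exact_mod_cast card_union_le _ _
    have h4 := hb1 S hS
    have h5 := hb2 S hS
    linarith
  · rw [nsmul_eq_mul, hG]
    have e4 : ((univ : Finset (Finset (Fin (n + 1)))).erase ∅).card ≤ 2 ^ (n + 1) := by
      refine (card_le_card (erase_subset _ _)).trans ?_
      rw [card_univ, Fintype.card_finset, Fintype.card_fin]
    have e5 : (((univ : Finset (Finset (Fin (n + 1)))).erase ∅).card : ℝ) ≤ 2 ^ (n + 1) := by exact_mod_cast e4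
    calc _ ≤ (2 : ℝ) ^ (n + 1) * (3 ^ (n + 1) * (3 + K₀) * (X : ℝ) ^ (n + e)) :=
          mul_le_mul_of_nonneg_right e5 (by positivity)
      _ = _ := by ring

end Pool.Agent.U265.MT
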