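import Pool.Agent.U265.MT.Spl
import Pool.Agent.H568.GR.Neg
import Pool.Agent.H568.GR.Pos
import Pool.Agent.H568.GR.Cnb
import Pool.Agent.H568.GR.Fin

/-!
# Torsion in the class groups of quadratic fields with many small split primes (helper265)
-/

set_option autoImplicit false

namespace Pool.Agent.U265.MT

open Finset Filter Topology NumberField Pool.Agent.U61.JS Pool.Agent.U265.MS
open Pool.Agent.Y549.SP (primesIn Thick oq)
open Pool.Agent.H568.GR (MM tor)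

/-- one `l` -/
theorem tor_one (k : ℕ) (A c θ₀ ε : ℝ) (l : ℕ) (hl : 1 ≤ l) (hc : 0 < c) (hθ₀ : 0 < θ₀) (hε : 0 < ε) :
    ∀ᶠ X : ℕ in atTop, ∀ (K : Type) [Field K] [NumberField K], Module.finrank ℚ K = 2 → ∀ a j : ℤ, j ≠ 0 →
      4 * a = discr K * j ^ 2 → (|(a : ℝ)| ≤ (X : ℝ) ^ k) → (X : ℝ) ^ θ₀ ≤ |(discr K : ℝ)| →
      (∀ y : ℕ, Real.log (8 * X) ^ A ≤ y → (y : ℝ) ≤ (X : ℝ) ^ c →
        |(js Set.univ a y : ℝ)| ≤ 1 / 4 * (primesIn Set.univ y).ncard) →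
      (tor K l : ℝ) ≤ |(discr K : ℝ)| ^ (1 / 2 - 1 / (2 * l) + ε : ℝ) := by
  obtain ⟨C1, hC1, hPOS⟩ := Pool.Agent.H568.GR.pos
  obtain ⟨C2, hC2, hCNB⟩ := Pool.Agent.H568.GR.cnb
  have hlR : (1 : ℝ) ≤ l := by exact_mod_cast hl
  obtain ⟨θ, hθ⟩ : ∃ θ : ℝ, θ = 1 / (2 * l) := ⟨_, rfl⟩
  have hθ0 : 0 < θ := by rw [hθ]; positivity
  have hθ1 : θ ≤ 1 / 2 := by
    rw [hθ]
    apply one_div_le_one_div_of_le (by norm_num)
    linarith
  obtain ⟨ε1, hε1d⟩ : ∃ ε1 : ℝ, ε1 = min (ε / 2) (θ / 8) := ⟨_, rfl⟩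
  have hε1 : 0 < ε1 := by rw [hε1d]; exact lt_min (by linarith) (by linarith)
  have hε1ε : ε1 ≤ ε / 2 := by rw [hε1d]; exact min_le_left _ _
  have hε1θ : ε1 ≤ θ / 8 := by rw [hε1d]; exact min_le_right _ _
  have hms := many_split k A c θ₀ θ (ε1 / 2) hc hθ₀ hθ1 (by positivity) (by linarith)
  have hle : 0 < (l : ℝ) * ε1 / 2 := by positivity
  obtain ⟨P1, hP1⟩ := eventually_atTop.1 ((tendsto_rpow_atTop hle).eventually_gt_atTop (4 * Real.exp (l + 1)))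
  obtain ⟨P2, hP2⟩ := eventually_atTop.1
    ((tendsto_rpow_atTop (show 0 < ε / 2 by positivity)).eventually_ge_atTop (max C1 C2 * (2 / ε1)))
  have hPt : Tendsto (fun X : ℕ => (X : ℝ) ^ θ₀) atTop atTop :=
    (tendsto_rpow_atTop hθ₀).comp tendsto_natCast_atTop_atTop
  filter_upwards [hms, hPt.eventually_ge_atTop (max (max P1 P2) 1)] with X h1 h2 K _ _ hK a j hj h4 haX hDX hjs
  have h3 := h1 a (discr K) j hj h4 haX hDX hjs
  have hP := Pool.Agent.H568.GR.FinAux.one_le_discr K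
  have hb1 : P1 ≤ |(discr K : ℝ)| := (((le_max_left _ _).trans (le_max_left _ _)).trans h2).trans hDX
  have hb2 : P2 ≤ |(discr K : ℝ)| := (((le_max_right _ _).trans (le_max_left _ _)).trans h2).trans hDX
  have hexp := hP1 _ hb1
  have hcst := hP2 _ hb2
  have e1 : θ - ε1 / 2 / 2 = θ - ε1 / 4 := by ring
  rw [e1] at h3
  have hN := Pool.Agent.H568.GR.FinAux.size_N hl hθ hP hexp
  have hcn := hCNB K hK
  have hkey : (tor K l : ℝ) * (MM (discr K) ⌊|(discr K : ℝ)| ^ (θ - ε1 / 4)⌋₊).card ≤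
      max C1 C2 * √|(discr K : ℝ)| * Real.log |(discr K : ℝ)| := by
    have hnn : 0 ≤ √|(discr K : ℝ)| * Real.log |(discr K : ℝ)| :=
      mul_nonneg (Real.sqrt_nonneg _) (Real.log_nonneg hP)
    rcases lt_or_gt_of_ne (discr_ne_zero K) with hneg | hpos
    · have h1 : 4 * (⌊|(discr K : ℝ)| ^ (θ - ε1 / 4)⌋₊ ^ 2) ^ l < (discr K).natAbs := by
        have h2 : 4 * (((⌊|(discr K : ℝ)| ^ (θ - ε1 / 4)⌋₊ : ℕ) : ℝ) ^ 2) ^ l <
            |(discr K : ℝ)| := by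
          refine lt_of_le_of_lt ?_ hN
          refine le_mul_of_one_le_right (by positivity) ?_
          exact Real.one_le_exp (by positivity)
        have h3 : |(discr K : ℝ)| = (((discr K).natAbs : ℕ) : ℝ) := by
          rw [Nat.cast_natAbs, Int.cast_abs]
        generalize ⌊|(discr K : ℝ)| ^ (θ - ε1 / 4)⌋₊ = N at h2 ⊢
        rw [h3] at h2
        exact_mod_cast h2
      have h4 := Pool.Agent.H568.GR.neg K hK hneg l _ hl h1
      have h5 : (tor K l : ℝ) * (MM (discr K) ⌊|(discr K : ℝ)| ^ (θ - ε1 / 4)⌋₊).card ≤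
          Nat.card (ClassGroup (𝓞 K)) := by exact_mod_cast h4
      refine h5.trans (hcn.trans ?_)
      rw [mul_assoc, mul_assoc]
      exact mul_le_mul_of_nonneg_right (le_max_right _ _) hnn
    · have h1 := hPOS K hK hpos l _ hl hN
      refine h1.trans ?_
      rw [mul_assoc, mul_assoc]
      exact mul_le_mul_of_nonneg_right (le_max_left _ _) hnn
  have hCmax : 0 ≤ max C1 C2 := hC1.le.trans (le_max_left _ _)
  have hfinal := Pool.Agent.H568.GR.FinAux.expo (t := (tor K l : ℝ)) hε1 le_rfl hP hCmax (Nat.cast_nonneg _) h3 hkey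
  have hP0 : 0 < |(discr K : ℝ)| := by linarith
  rw [← hθ]
  calc (tor K l : ℝ) ≤ max C1 C2 * (2 / ε1) * |(discr K : ℝ)| ^ (1 / 2 - θ + ε1) := hfinal
    _ ≤ |(discr K : ℝ)| ^ (ε / 2) * |(discr K : ℝ)| ^ (1 / 2 - θ + ε / 2) := by
        refine mul_le_mul hcst ?_ (by positivity) (by positivity)
        exact Real.rpow_le_rpow_of_exponent_le hP (by linarith)
    _ = |(discr K : ℝ)| ^ (1 / 2 - θ + ε) := by
        rw [← Real.rpow_add hP0]
        congr 1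
        ring

/-- all `l` -/
theorem tor_all (k : ℕ) (A c θ₀ ε : ℝ) (hc : 0 < c) (hθ₀ : 0 < θ₀) (hε : 0 < ε) :
    ∀ᶠ X : ℕ in atTop, ∀ (K : Type) [Field K] [NumberField K], Module.finrank ℚ K = 2 → ∀ a j : ℤ, j ≠ 0 →
      4 * a = discr K * j ^ 2 → (|(a : ℝ)| ≤ (X : ℝ) ^ k) → (X : ℝ) ^ θ₀ ≤ |(discr K : ℝ)| →
      (∀ y : ℕ, Real.log (8 * X) ^ A ≤ y → (y : ℝ) ≤ (X : ℝ) ^ c →
        |(js Set.univ a y : ℝ)| ≤ 1 / 4 * (primesIn Set.univ y).ncard) →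
      ∀ l : ℕ, 1 ≤ l → (tor K l : ℝ) ≤ |(discr K : ℝ)| ^ (1 / 2 - 1 / (2 * l) + ε : ℝ) := by
  obtain ⟨C2, hC2, hCNB⟩ := Pool.Agent.H568.GR.cnb
  obtain ⟨l₀, hl₀⟩ : ∃ l₀ : ℕ, l₀ = ⌈1 / ε⌉₊ + 1 := ⟨_, rfl⟩
  have hfin : ∀ᶠ X : ℕ in atTop, ∀ l ∈ Finset.Icc 1 l₀, ∀ (K : Type) [Field K] [NumberField K],
      Module.finrank ℚ K = 2 → ∀ a j : ℤ, j ≠ 0 →
      4 * a = discr K * j ^ 2 → (|(a : ℝ)| ≤ (X : ℝ) ^ k) → (X : ℝ) ^ θ₀ ≤ |(discr K : ℝ)| →
      (∀ y : ℕ, Real.log (8 * X) ^ A ≤ y → (y : ℝ) ≤ (X : ℝ) ^ c →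
        |(js Set.univ a y : ℝ)| ≤ 1 / 4 * (primesIn Set.univ y).ncard) →
      (tor K l : ℝ) ≤ |(discr K : ℝ)| ^ (1 / 2 - 1 / (2 * l) + ε : ℝ) := by
    rw [Filter.eventually_all_finset]
    intro l hl
    rw [Finset.mem_Icc] at hl
    exact tor_one k A c θ₀ ε l hl.1 hc hθ₀ hε
  have hPt : Tendsto (fun X : ℕ => (X : ℝ) ^ θ₀) atTop atTop :=
    (tendsto_rpow_atTop hθ₀).comp tendsto_natCast_atTop_atTop
  obtain ⟨P2, hP2⟩ := eventually_atTop.1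
    ((isLittleO_log_rpow_atTop (r := ε / 2) (by positivity)).bound (c := 1 / C2) (by positivity))
  filter_upwards [hfin, hPt.eventually_ge_atTop (max P2 1)] with X h1 h2 K _ _ hK a j hj h4 haX hDX hjs l hl
  by_cases hll : l ≤ l₀
  · exact h1 l (Finset.mem_Icc.2 ⟨hl, hll⟩) K hK a j hj h4 haX hDX hjs
  · push Not at hll
    have hP := Pool.Agent.H568.GR.FinAux.one_le_discr K
    have hP0 : 0 < |(discr K : ℝ)| := by linarith
    have h3 : (tor K l : ℝ) ≤ Nat.card (ClassGroup (𝓞 K)) := by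
      exact_mod_cast Pool.Agent.H568.GR.FinAux.tor_le K l
    have h5 := hCNB K hK
    have h6 := hP2 |(discr K : ℝ)| (((le_max_left _ _).trans h2).trans hDX)
    rw [Real.norm_of_nonneg (Real.log_nonneg hP), Real.norm_of_nonneg (Real.rpow_nonneg hP0.le _)] at h6
    have h7 : 1 / (2 * (l : ℝ)) ≤ ε / 2 := by
      have h8 : 1 / ε ≤ l₀ := by
        rw [hl₀]
        push_cast
        have := Nat.le_ceil (1 / ε)
        linarith
      have h9 : (l₀ : ℝ) ≤ l := by exact_mod_cast hll.le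
      have h10 : (1 : ℝ) ≤ l := by exact_mod_cast hl
      rw [div_le_iff₀ hε] at h8
      rw [div_le_iff₀ (by positivity)]
      nlinarith
    calc (tor K l : ℝ) ≤ C2 * √|(discr K : ℝ)| * Real.log |(discr K : ℝ)| := h3.trans h5
      _ ≤ C2 * √|(discr K : ℝ)| * (1 / C2 * |(discr K : ℝ)| ^ (ε / 2)) :=
          mul_le_mul_of_nonneg_left h6 (by positivity)
      _ = |(discr K : ℝ)| ^ (1 / 2 : ℝ) * |(discr K : ℝ)| ^ (ε / 2) := by
          rw [Real.sqrt_eq_rpow]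
          field_simp
      _ = |(discr K : ℝ)| ^ (1 / 2 + ε / 2) := by rw [← Real.rpow_add hP0]
      _ ≤ _ := Real.rpow_le_rpow_of_exponent_le hP (by linarith)

end Pool.Agent.U265.MT
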