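import Pool.Agent.U265.MT.Cnt
import Pool.Agent.U265.MT.Tor
import Pool.Agent.U265.MS.Reg
import Pool.Agent.TH847.LS.Quad

/-!
# Metric theorems for the torsion in the class groups of quadratic fields (helper265)
-/

set_option autoImplicit false

namespace Pool.Agent.U265.MT

open Finset Filter Topology NumberField Pool.Agent.U61.JS Pool.Agent.U265.MS
open Pool.Agent.Y549.SP (primesIn Thick oq)
open Pool.Agent.H568.GR (tor)
open scoped ENNReal

/-- the radicand and the discriminant -/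
lemma four_eq {K : Type} [Field K] [NumberField K] (h2 : Module.finrank ℚ K = 2) {y : K} {P : ℤ}
    (hy : y ∉ Set.range (algebraMap ℚ K)) (hy2 : y ^ 2 = (P : K)) : ∃ j : ℤ, j ≠ 0 ∧ 4 * P = discr K * j ^ 2 := by
  have hdns : ¬ IsSquare P := by
    rintro ⟨s, hs⟩
    rw [hs] at hy2
    have h3 : (y - s) * (y + s) = 0 := by
      push_cast at hy2
      linear_combination hy2
    rcases mul_eq_zero.1 h3 with h | h
    · exact hy ⟨s, by rw [map_intCast]; exact (sub_eq_zero.1 h).symm⟩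
    · exact hy ⟨-s, by rw [map_neg, map_intCast]; exact (eq_neg_of_add_eq_zero_left h).symm⟩
  have hyi : IsIntegral ℤ y := by
    apply IsIntegral.of_pow (n := 2) (by norm_num)
    rw [hy2]
    exact isIntegral_algebraMap (x := P)
  obtain ⟨β, hβ⟩ : ∃ β : 𝓞 K, algebraMap (𝓞 K) K β = y := ⟨⟨y, hyi⟩, rfl⟩
  have hβ2 : β ^ 2 = (P : 𝓞 K) := by
    apply RingOfIntegers.ext
    show algebraMap (𝓞 K) K (β ^ 2) = algebraMap (𝓞 K) K ((P : ℤ) : 𝓞 K)
    rw [map_pow, map_intCast, hβ]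
    exact hy2
  have hnot : ∀ n : ℤ, β ≠ (n : 𝓞 K) := by
    intro n hn
    rw [hn] at hβ2
    have : n ^ 2 = P := by
      have h3 : ((n ^ 2 : ℤ) : 𝓞 K) = ((P : ℤ) : 𝓞 K) := by push_cast; exact hβ2
      exact_mod_cast h3
    exact hdns ⟨n, by rw [← this]; ring⟩
  obtain ⟨u, m', hm', e1, e2⟩ := Pool.Agent.TH847.LS.quad_eq h2 β hnot
  rw [e2] at e1
  have hu : u = 0 := by
    by_contra hu
    have h3 : ((4 * u : ℤ) : 𝓞 K) * β = ((4 * P + u ^ 2 - m' ^ 2 * discr K : ℤ) : 𝓞 K) := by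
      push_cast at e1 ⊢
      linear_combination -e1 + 4 * hβ2
    have h4 := congrArg (fun z => z ^ 2) h3
    simp only [mul_pow, hβ2] at h4
    have h5 : (4 * u) ^ 2 * P = (4 * P + u ^ 2 - m' ^ 2 * discr K) ^ 2 := by exact_mod_cast h4
    have h6 : (4 * u) ^ 2 ∣ (4 * P + u ^ 2 - m' ^ 2 * discr K) ^ 2 := ⟨P, h5.symm⟩
    have h7 : (4 * u) ∣ (4 * P + u ^ 2 - m' ^ 2 * discr K) :=
      (Int.pow_dvd_pow_iff (by norm_num)).1 h6
    obtain ⟨w, hw⟩ := h7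
    have h8 : (4 * u) ^ 2 ≠ 0 := by positivity
    have h9 : P = w ^ 2 := by
      apply mul_left_cancel₀ h8
      rw [h5, hw]
      ring
    exact hdns ⟨w, by rw [h9]; ring⟩
  rw [hu] at e1
  have h3 : ((4 * P : ℤ) : 𝓞 K) = ((discr K * m' ^ 2 : ℤ) : 𝓞 K) := by
    push_cast at e1 ⊢
    linear_combination e1 - 4 * hβ2
  exact ⟨m', hm', by exact_mod_cast h3⟩

/-- the bound for the torsion in the quadratic fields attached to a tuple -/
def Bound {k : ℕ} (ε : ℝ) (d : Fin k → ℤ) : Prop :=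
  ∀ S : Finset (Fin k), ∀ (K : Type) [Field K] [NumberField K], Module.finrank ℚ K = 2 →
    ∀ y : K, y ∉ Set.range (algebraMap ℚ K) → y ^ 2 = ((∏ i ∈ S, d i : ℤ) : K) →
      ∀ l : ℕ, 1 ≤ l → (tor K l : ℝ) ≤ |(discr K : ℝ)| ^ (1 / 2 - 1 / (2 * l) + ε : ℝ)

/-- tuples which are not bad satisfy the bound -/
lemma bound_of_not_bad (k : ℕ) {A c e ε : ℝ} (hc : 0 < c) (he : 0 < e) (hε : 0 < ε) :
    ∀ᶠ X : ℕ in atTop, ∀ d : Fin k → ℤ, (∀ i, |d i| ≤ X) → ¬ BadF A c e X d → Bound ε d := by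
  filter_upwards [tor_all k A c e ε hc he hε, eventually_ge_atTop 1] with X h1 hX d hd hbad S K _ _ hK y hy hy2 l hl
  have hX1 : (1 : ℝ) ≤ X := by exact_mod_cast hX
  have hS : S.Nonempty := by
    by_contra hS
    rw [not_nonempty_iff_eq_empty] at hS
    rw [hS, prod_empty] at hy2
    have h3 : (y - 1) * (y + 1) = 0 := by
      push_cast at hy2
      linear_combination hy2
    rcases mul_eq_zero.1 h3 with h | h
    · exact hy ⟨1, by rw [map_one]; exact (sub_eq_zero.1 h).symm⟩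
    · exact hy ⟨-1, by rw [map_neg, map_one]; exact (eq_neg_of_add_eq_zero_left h).symm⟩
  obtain ⟨j, hj, h4⟩ := four_eq hK hy hy2
  unfold BadF at hbad
  push Not at hbad
  obtain ⟨g1, g2⟩ := hbad S hS
  refine h1 K hK _ j hj h4 ?_ ?_ ?_ l hl
  · push_cast
    rw [Finset.abs_prod]
    calc ∏ i ∈ S, |(d i : ℝ)| ≤ ∏ _i ∈ S, (X : ℝ) := by
          refine prod_le_prod (fun _ _ => abs_nonneg _) fun i _ => ?_
          rw [← Int.cast_abs]
          exact_mod_cast hd i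
      _ = (X : ℝ) ^ S.card := by rw [prod_const]
      _ ≤ (X : ℝ) ^ k := by
          refine pow_le_pow_right₀ hX1 ?_
          have := card_le_univ S
          rwa [Fintype.card_fin] at this
  · by_contra hcon
    push Not at hcon
    exact g1 (discr K) j hj hcon h4
  · intro y hy1 hy2
    exact g2 y hy1 hy2

/-- the exceptional tuples -/
theorem count_tor (k : ℕ) (hk : 1 ≤ k) (ε : ℝ) (hε : 0 < ε) :
    ∃ C : ℝ, ∀ X : ℕ, 1 ≤ X → ∀ T : Finset (Fin k → ℤ),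
      (∀ d ∈ T, (∀ i, Fund (d i) ∧ |d i| ≤ X) ∧ ¬ Bound ε d) →
      (T.card : ℝ) ≤ C * (X : ℝ) ^ ((k : ℝ) - 1 + ε) := by
  classical
  obtain ⟨A, c, K, hc, hK, h⟩ := fund_joint k hk ε hε
  obtain ⟨X₀, hX₀⟩ := eventually_atTop.1 (bound_of_not_bad k (A := A) hc hε hε)
  refine ⟨(2 * X₀ + 1) ^ k + K, fun X hX T hT => ?_⟩
  have hX1 : (1 : ℝ) ≤ X := by exact_mod_cast hX
  have hk1 : (1 : ℝ) ≤ k := by exact_mod_cast hk
  have hbig : (1 : ℝ) ≤ (X : ℝ) ^ ((k : ℝ) - 1 + ε) := Real.one_le_rpow hX1 (by linarith)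
  rcases lt_or_ge X X₀ with hlt | hge
  · have hTpi : T ⊆ Fintype.piFinset (fun _ : Fin k => Icc (-(X : ℤ)) X) := by
      intro m hm
      rw [Fintype.mem_piFinset]
      intro i
      have := ((hT m hm).1 i).2
      rw [abs_le] at this
      rw [mem_Icc]
      exact this
    have hIc : ((Icc (-(X : ℤ)) X).card : ℝ) = 2 * X + 1 := by
      rw [Int.card_Icc]
      have : ((X : ℤ) + 1 - -(X : ℤ)).toNat = 2 * X + 1 := by omega
      rw [this]
      push_cast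
      ring
    have h1 : (T.card : ℝ) ≤ (2 * X + 1) ^ k := by
      have h2 := card_le_card hTpi
      rw [Fintype.card_piFinset_const] at h2
      have h3 : (T.card : ℝ) ≤ ((Icc (-(X : ℤ)) X).card : ℝ) ^ k := by exact_mod_cast h2
      rwa [hIc] at h3
    have h2 : ((2 : ℝ) * X + 1) ^ k ≤ (2 * X₀ + 1) ^ k := by
      refine pow_le_pow_left₀ (by positivity) ?_ _
      have : (X : ℝ) ≤ X₀ := by exact_mod_cast hlt.le
      linarith
    have h3 : (0 : ℝ) ≤ (2 * X₀ + 1) ^ k := by positivity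
    nlinarith
  · have h1 := h X hX T fun d hd => ⟨(hT d hd).1, by
      by_contra hcon
      exact (hT d hd).2 (hX₀ X hge d (fun i => ((hT d hd).1 i).2) hcon)⟩
    have h2 : (0 : ℝ) ≤ (2 * X₀ + 1) ^ k := by positivity
    nlinarith

/-- good sequences of vectors -/
def Good {k : ℕ} (κ : ℝ) (W : ℕ → ℝ) (x : ℕ → Fin k → ℝ) : Prop :=
  ∀ ε : ℝ, 0 < ε → ∀ᶠ n : ℕ in atTop, ∀ d : Fin k → ℤ, (∀ i, Fund (d i) ∧ |(d i : ℝ) - x n i| ≤ W n ^ κ) →
    Bound ε d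

lemma Good.mono {k : ℕ} {κ κ' : ℝ} {W : ℕ → ℝ} (hW : ∀ᶠ n in atTop, 1 ≤ W n) {x : ℕ → Fin k → ℝ} (hκ : κ' ≤ κ)
    (h : Good κ W x) : Good κ' W x := by
  intro ε hε
  filter_upwards [h ε hε, hW] with n h1 h2 d hd
  exact h1 d fun i => ⟨(hd i).1, (hd i).2.trans (Real.rpow_le_rpow_of_exponent_le h2 hκ)⟩

theorem dil_tor (k : ℕ) (hk : 1 ≤ k) (κ τ : ℝ) (hκ : κ < 1) (hτ : 0 ≤ τ) (w : ℕ → ℝ) (hw : ∀ n, 1 ≤ w n)
    (hsum : ∀ t : ℝ, τ < t → Summable fun n => w n ^ (-t)) :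
    dimH {x : Fin k → ℝ | ¬ Good κ w (fun n i => w n * x i)} ≤ ENNReal.ofReal ((k - 1 + τ) / (1 - κ)) := by
  have hκ' : 0 < 1 - κ := by linarith
  have hk1 : (1 : ℝ) ≤ k := by exact_mod_cast hk
  refine Pool.Agent.N84.MD.dim_le_of_forall (div_nonneg (by linarith) hκ'.le) fun D hD => ?_
  rw [div_lt_iff₀ hκ'] at hD
  have hD0 : 0 < D := by
    by_contra h
    push Not at h
    nlinarith
  obtain ⟨e, he, heD⟩ : ∃ e : ℝ, 0 < e ∧ k - 1 + e + τ < D * (1 - κ) :=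
    ⟨(D * (1 - κ) - (k - 1 + τ)) / 2, by linarith, by linarith⟩
  obtain ⟨A, c, K, hc, hK, hcount⟩ := fund_joint k hk e he
  have hsub : {x : Fin k → ℝ | ¬ Good κ w (fun n i => w n * x i)} ⊆
      ⋃ R : ℕ, {x : Fin k → ℝ | (∀ i, |x i| ≤ R) ∧ ∃ᶠ n : ℕ in atTop, ∃ m : Fin k → ℤ,
        (∀ i, |(m i : ℝ) - w n * x i| ≤ w n ^ κ) ∧ m ∈ {m : Fin k → ℤ | (∀ i, Fund (m i)) ∧
          BadF A c e ⌈((R : ℝ) + 1) * w n⌉₊ m}} := by
    intro x hx
    by_contra hcon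
    apply hx
    rw [Set.mem_iUnion] at hcon
    push Not at hcon
    obtain ⟨R, hR⟩ : ∃ R : ℕ, ∀ i, |x i| ≤ R := by
      obtain ⟨R, hR⟩ := exists_nat_ge (∑ i, |x i|)
      exact ⟨R, fun i => (single_le_sum (f := fun i => |x i|) (fun i _ => abs_nonneg _) (mem_univ i)).trans hR⟩
    have h2 := hcon R
    rw [Set.mem_ofPred_eq] at h2
    push Not at h2
    have h3 := h2 hR
    intro ε hε
    have hR0 : (0 : ℝ) ≤ R := Nat.cast_nonneg R
    have hwt : Tendsto w atTop atTop := tendsto_of_summable hw (t := τ + 1) (by linarith) (hsum _ (by linarith))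
    have hXt : Tendsto (fun n => ⌈((R : ℝ) + 1) * w n⌉₊) atTop atTop :=
      tendsto_nat_ceil_atTop.comp (hwt.const_mul_atTop (by positivity))
    filter_upwards [h3, hXt.eventually (bound_of_not_bad k (A := A) hc he hε)] with n h4 h5 d hd
    have hwn := hw n
    have h7 := h4 d (fun i => (hd i).2)
    have h8 : ¬ BadF A c e ⌈((R : ℝ) + 1) * w n⌉₊ d := fun hB => h7 ⟨fun i => (hd i).1, hB⟩
    refine h5 d (fun i => ?_) h8
    have h9 : |(d i : ℝ)| ≤ (R + 1) * w n := by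
      have b6 := abs_add_le ((d i : ℝ) - w n * x i) (w n * x i)
      rw [sub_add_cancel, abs_mul, abs_of_pos (by linarith : 0 < w n)] at b6
      have b4 : w n ^ κ ≤ w n := by
        have := Real.rpow_le_rpow_of_exponent_le hwn hκ.le
        rwa [Real.rpow_one] at this
      have b5 := (hd i).2
      have b7 : w n * |x i| ≤ w n * R := mul_le_mul_of_nonneg_left (hR i) (by linarith)
      linarith
    have h10 := h9.trans (Nat.le_ceil _)
    rw [← Int.cast_abs] at h10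
    exact_mod_cast h10
  refine (dimH_mono hsub).trans ?_
  rw [dimH_iUnion]
  refine iSup_le fun R => ?_
  refine dil_dim (fun X => {m : Fin k → ℤ | (∀ i, Fund (m i)) ∧ BadF A c e X m})
    (s := k - 1 + e) (τ := τ) (K := K) (by linarith) hκ hK.le hD0 (by linarith) ?_ w hw hsum R
  intro X hX T hT
  exact hcount X hX T (fun m hm => ⟨fun i => ⟨(hT m hm).2.1 i, (hT m hm).1 i⟩, (hT m hm).2.2⟩)

theorem pow_tor (κ : ℝ) (hκ0 : 0 ≤ κ) (hκ : κ < 1) (Ξ : Set ℝ) (hΞ : Ξ.Countable) (hΞ0 : ∀ ξ ∈ Ξ, ξ ≠ 0)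
    (w : ℕ → ℝ) (hw : ∀ n, 1 ≤ w n) (hlim : Tendsto (fun n : ℕ => w n / Real.log n) atTop atTop) :
    dimH {α : ℝ | 1 < α ∧ ¬ ∀ ξ ∈ Ξ, Good κ (fun n => α ^ w n) (fun n (_ : Fin 1) => ξ * α ^ w n)} = 0 := by
  have hκ' : 0 < 1 - κ := by linarith
  refine le_antisymm ?_ bot_le
  have hgoal : dimH {α : ℝ | 1 < α ∧ ¬ ∀ ξ ∈ Ξ, Good κ (fun n => α ^ w n) (fun n (_ : Fin 1) => ξ * α ^ w n)} ≤
      ENNReal.ofReal 0 := by
    refine Pool.Agent.N84.MD.dim_le_of_forall le_rfl fun D hD0 => ?_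
    obtain ⟨e, he, heD⟩ : ∃ e : ℝ, 0 < e ∧ e < D * (1 - κ) :=
      ⟨D * (1 - κ) / 2, by positivity, by nlinarith [mul_pos hD0 hκ']⟩
    obtain ⟨A, c, K, hc, hK, hcount⟩ := fund_joint 1 le_rfl e he
    have hS0 : 0 < e + κ * D := by positivity
    have hSD : e + κ * D < D := by linarith
    obtain ⟨g, hg1, hg2⟩ := exists_between (show 1 < D / (e + κ * D) by rwa [one_lt_div hS0])
    rw [lt_div_iff₀ hS0] at hg2
    have hg0 : 0 < g := by linarith
    have hsub : {α : ℝ | 1 < α ∧ ¬ ∀ ξ ∈ Ξ, Good κ (fun n => α ^ w n) (fun n (_ : Fin 1) => ξ * α ^ w n)} ⊆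
        ⋃ ξ ∈ Ξ, ⋃ l : ℤ, {α : ℝ | (Real.exp (g ^ l) ≤ α ∧ α ≤ Real.exp (g ^ (l + 1))) ∧
          ∃ᶠ n : ℕ in atTop, ∃ m : Fin 1 → ℤ,
          (∀ i, |(m i : ℝ) - ξ * α ^ w n| ≤ (Real.exp (g ^ (l + 1)) ^ w n) ^ κ) ∧ m ∈ {m : Fin 1 → ℤ | (∀ i, Fund (m i)) ∧
            BadF A c e ⌈(|ξ| + 1) * Real.exp (g ^ (l + 1)) ^ w n⌉₊ m}} := by
      rintro α ⟨hα, hx⟩
      push Not at hx
      obtain ⟨ξ, hξ, hx⟩ := hx
      rw [Set.mem_iUnion₂]
      refine ⟨ξ, hξ, ?_⟩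
      by_contra hcon
      apply hx
      rw [Set.mem_iUnion] at hcon
      push Not at hcon
      have hlα : 0 < Real.log α := Real.log_pos hα
      obtain ⟨l, hl1, hl2⟩ := exists_mem_Ico_zpow hlα hg1
      have hα0 : 0 < α := by linarith
      have hu : Real.exp (g ^ l) ≤ α := by rwa [← Real.le_log_iff_exp_le hα0]
      have hv : α ≤ Real.exp (g ^ (l + 1)) := by
        rw [← Real.log_le_iff_le_exp hα0]
        exact hl2.le
      have h2 := hcon l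
      rw [Set.mem_ofPred_eq] at h2
      push Not at h2
      have h3 := h2 ⟨hu, hv⟩
      intro ε hε
      have hwt : Tendsto w atTop atTop := by
        rw [tendsto_atTop]
        intro B
        have hlogt : Tendsto (fun n : ℕ => Real.log (n : ℝ)) atTop atTop :=
          Real.tendsto_log_atTop.comp tendsto_natCast_atTop_atTop
        filter_upwards [hlim.eventually_ge_atTop (max B 0), hlogt.eventually_ge_atTop 1] with n h1 h2
        rw [le_div_iff₀ (by linarith)] at h1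
        have h3 : max B 0 ≤ max B 0 * Real.log n := le_mul_of_one_le_right (le_max_right _ _) h2
        have h4 := le_max_left B 0
        linarith
      have hVt : Tendsto (fun n => Real.exp (g ^ (l + 1)) ^ w n) atTop atTop := by
        have h4 : (fun n => Real.exp (g ^ (l + 1)) ^ w n) = fun n => Real.exp (g ^ (l + 1) * w n) := by
          funext n
          rw [Real.exp_mul]
        rw [h4]
        exact Real.tendsto_exp_atTop.comp (hwt.const_mul_atTop (zpow_pos hg0 _))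
      have hXt : Tendsto (fun n => ⌈(|ξ| + 1) * Real.exp (g ^ (l + 1)) ^ w n⌉₊) atTop atTop :=
        tendsto_nat_ceil_atTop.comp (hVt.const_mul_atTop (by positivity))
      filter_upwards [h3, hXt.eventually (bound_of_not_bad 1 (A := A) hc he hε)] with n h4 h5 d hd
      have hξ0 : (0 : ℝ) ≤ |ξ| := abs_nonneg ξ
      have hwn := hw n
      have hW1 : 1 ≤ α ^ w n := Real.one_le_rpow hα.le (by linarith)
      have hWv : α ^ w n ≤ Real.exp (g ^ (l + 1)) ^ w n := Real.rpow_le_rpow hα0.le hv (by linarith)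
      have h7 := h4 d (fun i => (hd i).2.trans (Real.rpow_le_rpow (by linarith) hWv hκ0))
      have h8 : ¬ BadF A c e ⌈(|ξ| + 1) * Real.exp (g ^ (l + 1)) ^ w n⌉₊ d := fun hB => h7 ⟨fun i => (hd i).1, hB⟩
      refine h5 d (fun i => ?_) h8
      have h9 : |(d i : ℝ)| ≤ (|ξ| + 1) * Real.exp (g ^ (l + 1)) ^ w n := by
        have b6 := abs_add_le ((d i : ℝ) - ξ * α ^ w n) (ξ * α ^ w n)
        rw [sub_add_cancel, abs_mul, abs_of_pos (by linarith : 0 < α ^ w n)] at b6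
        have b4 : (α ^ w n) ^ κ ≤ α ^ w n := by
          have := Real.rpow_le_rpow_of_exponent_le hW1 hκ.le
          rwa [Real.rpow_one] at this
        have b5 := (hd i).2
        have b7 : |ξ| * α ^ w n ≤ |ξ| * Real.exp (g ^ (l + 1)) ^ w n := mul_le_mul_of_nonneg_left hWv hξ0
        linarith
      have h10 := h9.trans (Nat.le_ceil _)
      rw [← Int.cast_abs] at h10
      exact_mod_cast h10
    refine (dimH_mono hsub).trans ?_
    rw [dimH_bUnion hΞ]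
    refine iSup₂_le fun ξ hξ => ?_
    rw [dimH_iUnion]
    refine iSup_le fun l => ?_
    have hgl : 0 < g ^ l := zpow_pos hg0 l
    refine pow_dim (fun X => {m : Fin 1 → ℤ | (∀ i, Fund (m i)) ∧ BadF A c e X m})
      (s := e) (κ := κ) (K := K) he.le hκ0 hK.le hD0 ?_ hκ.le (Real.one_lt_exp_iff.2 hgl) ?_ ?_ (hΞ0 ξ hξ)
      w hw hlim
    · intro X hX T hT
      have h1 := hcount X hX T (fun m hm => ⟨fun i => ⟨(hT m hm).2.1 i, (hT m hm).1 i⟩, (hT m hm).2.2⟩)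
      have e1 : (((1 : ℕ) : ℝ)) - 1 + e = e := by push_cast; ring
      rwa [e1] at h1
    · refine Real.exp_le_exp.2 ?_
      rw [zpow_add_one₀ hg0.ne']
      nlinarith
    · rw [Real.log_exp, Real.log_exp, zpow_add_one₀ hg0.ne']
      nlinarith
  simpa using hgoal

lemma exists_kap (κ : ℝ) (hκ : κ < 1) : ∃ j : ℕ, κ ≤ 1 - 1 / ((j : ℝ) + 1) := by
  obtain ⟨j, hj⟩ := exists_nat_one_div_lt (show 0 < 1 - κ by linarith)
  exact ⟨j, by linarith⟩

/-- one field, all exponents -/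
theorem dil_zero (w : ℕ → ℝ) (hw : ∀ n, 1 ≤ w n) (hsum : ∀ t : ℝ, 0 < t → Summable fun n => w n ^ (-t)) :
    dimH {x : ℝ | ¬ ∀ κ : ℝ, κ < 1 → Good κ w (fun n (_ : Fin 1) => w n * x)} = 0 := by
  have hiso : Isometry (fun y : ℝ => (fun _ : Fin 1 => y)) := by
    refine Isometry.of_dist_eq fun a b => ?_
    rw [dist_pi_const]
  rw [← hiso.dimH_image]
  refine le_antisymm ?_ bot_le
  have hsub : (fun y : ℝ => (fun _ : Fin 1 => y)) '' {x : ℝ | ¬ ∀ κ : ℝ, κ < 1 → Good κ w (fun n (_ : Fin 1) => w n * x)} ⊆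
      ⋃ j : ℕ, {x : Fin 1 → ℝ | ¬ Good (1 - 1 / ((j : ℝ) + 1)) w (fun n i => w n * x i)} := by
    rintro _ ⟨x, hx, rfl⟩
    rw [Set.mem_ofPred_eq] at hx
    push Not at hx
    obtain ⟨κ, hκ, hx⟩ := hx
    obtain ⟨j, hj⟩ := exists_kap κ hκ
    rw [Set.mem_iUnion]
    exact ⟨j, fun h => hx (h.mono (Eventually.of_forall hw) hj)⟩
  refine (dimH_mono hsub).trans ?_
  rw [dimH_iUnion]
  refine iSup_le fun j => ?_
  have hj0 : (0 : ℝ) < 1 / ((j : ℝ) + 1) := by positivity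
  have h1 := dil_tor 1 le_rfl (1 - 1 / ((j : ℝ) + 1)) 0 (by linarith) le_rfl w hw hsum
  simpa using h1

/-- powers, all exponents -/
theorem pow_zero' (Ξ : Set ℝ) (hΞ : Ξ.Countable) (hΞ0 : ∀ ξ ∈ Ξ, ξ ≠ 0)
    (w : ℕ → ℝ) (hw : ∀ n, 1 ≤ w n) (hlim : Tendsto (fun n : ℕ => w n / Real.log n) atTop atTop) :
    dimH {α : ℝ | 1 < α ∧ ¬ ∀ ξ ∈ Ξ, ∀ κ : ℝ, κ < 1 → Good κ (fun n => α ^ w n) (fun n (_ : Fin 1) => ξ * α ^ w n)} = 0 := by
  refine le_antisymm ?_ bot_le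
  have hsub : {α : ℝ | 1 < α ∧ ¬ ∀ ξ ∈ Ξ, ∀ κ : ℝ, κ < 1 →
      Good κ (fun n => α ^ w n) (fun n (_ : Fin 1) => ξ * α ^ w n)} ⊆
      ⋃ j : ℕ, {α : ℝ | 1 < α ∧ ¬ ∀ ξ ∈ Ξ,
        Good (1 - 1 / ((j : ℝ) + 1)) (fun n => α ^ w n) (fun n (_ : Fin 1) => ξ * α ^ w n)} := by
    rintro α ⟨hα, hx⟩
    push Not at hx
    obtain ⟨ξ, hξ, κ, hκ, hx⟩ := hx
    obtain ⟨j, hj⟩ := exists_kap κ hκ
    rw [Set.mem_iUnion]
    refine ⟨j, hα, fun h => hx ((h ξ hξ).mono (Eventually.of_forall fun n => ?_) hj)⟩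
    exact Real.one_le_rpow hα.le (by linarith [hw n])
  refine (dimH_mono hsub).trans ?_
  rw [dimH_iUnion]
  refine iSup_le fun j => ?_
  have hj0 : (0 : ℝ) < 1 / ((j : ℝ) + 1) := by positivity
  have hj1 : 1 / ((j : ℝ) + 1) ≤ 1 := by
    rw [div_le_one (by positivity)]
    linarith [(Nat.cast_nonneg j : (0 : ℝ) ≤ j)]
  exact (pow_tor (1 - 1 / ((j : ℝ) + 1)) (by linarith) (by linarith) Ξ hΞ hΞ0 w hw hlim).le

end Pool.Agent.U265.MT
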