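import Pool.Agent.U265.MS.Disc
import Pool.Agent.H568.GR.Stm2

/-!
# Many squarefree products of split primes (helper265)
-/

set_option autoImplicit false

namespace Pool.Agent.U265.MT

open Finset Filter Topology Pool.Agent.U61.JS Pool.Agent.U265.MS
open Pool.Agent.Y549.SP (primesIn Thick oq)
open Pool.Agent.H568.GR (MM)

lemma jac_tr {a D j : ℤ} {p : ℕ} (hp : p.Prime) (hp2 : p ≠ 2) (h : 4 * a = D * j ^ 2) (ha : jacobiSym a p = 1) :
    jacobiSym D p = 1 := by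
  have h1 : jacobiSym (4 * a) p = 1 := by
    rw [Pool.Agent.Y549.SP.SPL.jac_four a p hp hp2, ha]
  rw [h, jacobiSym.mul_left, jacobiSym.pow_left] at h1
  rcases jacobiSym.trichotomy j p with h2 | h2 | h2 <;> rw [h2] at h1 <;> simpa using h1

lemma mm_lower {a D j : ℤ} (h : 4 * a = D * j ^ 2) {P : Finset ℕ} {y r N : ℕ}
    (hP : ∀ p ∈ P, p.Prime ∧ p ≠ 2 ∧ p ≤ y ∧ jacobiSym a p = 1) (hN : y ^ r ≤ N) :
    P.card.choose r ≤ (MM D N).card := by
  classical
  rw [← card_powersetCard]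
  have hpr : ∀ T ∈ P.powersetCard r, ∀ p ∈ T, p.Prime := fun T hT p hp =>
    (hP p ((mem_powersetCard.1 hT).1 hp)).1
  refine card_le_card_of_injOn (fun T => ∏ p ∈ T, p) ?_ ?_
  · intro T hT
    rw [mem_coe] at hT
    have hT' := mem_powersetCard.1 hT
    rw [mem_coe]
    unfold MM
    rw [mem_filter, mem_Icc]
    refine ⟨⟨Nat.one_le_iff_ne_zero.2 (prod_ne_zero_iff.2 fun p hp => (hpr T hT p hp).ne_zero), ?_⟩, ?_, ?_⟩
    · refine le_trans ?_ hN
      rw [← hT'.2]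
      exact prod_le_pow_card _ _ _ fun p hp => (hP p (hT'.1 hp)).2.2.1
    · refine Finset.squarefree_prod_of_pairwise_isCoprime ?_ fun p hp => (hpr T hT p hp).squarefree
      intro p hp q hq hpq
      exact Nat.coprime_iff_isRelPrime.1 ((Nat.coprime_primes (hpr T hT p hp) (hpr T hT q hq)).2 hpq)
    · intro p hp hdvd
      obtain ⟨q, hq, hpq⟩ := (Prime.dvd_finsetProd_iff hp.prime _).1 hdvd
      have : p = q := (Nat.prime_dvd_prime_iff_eq hp (hpr T hT q hq)).1 hpq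
      subst this
      obtain ⟨g1, g2, g3, g4⟩ := hP p (hT'.1 hq)
      exact ⟨g2, jac_tr g1 g2 h g4⟩
  · intro T hT T' hT' heq
    rw [mem_coe] at hT hT'
    have e1 := Nat.primeFactors_prod (s := T) (fun p hp => hpr T hT p hp)
    have e2 := Nat.primeFactors_prod (s := T') (fun p hp => hpr T' hT' p hp)
    rw [← e1, ← e2]
    exact congrArg Nat.primeFactors heq

open Classical in
/-- the number of the primes with symbol `1` -/
lemma count_one {a : ℤ} (ha : a ≠ 0) (y : ℕ) :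
    ((oq Set.univ y).card : ℝ) - |(js Set.univ a y : ℝ)| - 2 * Real.log |(a : ℝ)| ≤
      2 * (((oq Set.univ y).filter (fun p => jacobiSym a p = 1)).card : ℝ) := by
  have hpr : ∀ p ∈ oq Set.univ y, p.Prime := by
    intro p hp
    simp only [oq, mem_filter] at hp
    exact hp.2.1
  have h1 : (js Set.univ a y : ℝ) = ∑ p ∈ oq Set.univ y, (jacobiSym a p : ℝ) := by
    unfold js
    push_cast
    rfl
  have h2 : ∀ p ∈ oq Set.univ y, (1 : ℝ) + jacobiSym a p ≤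
      2 * (if jacobiSym a p = 1 then (1 : ℝ) else 0) + (if p ∣ a.natAbs then (1 : ℝ) else 0) := by
    intro p hp
    rcases jacobiSym.trichotomy a p with h | h | h
    · have hdv : p ∣ a.natAbs := by
        haveI : Fact p.Prime := ⟨hpr p hp⟩
        rw [← jacobiSym.legendreSym.to_jacobiSym, legendreSym.eq_zero_iff,
          ZMod.intCast_zmod_eq_zero_iff_dvd] at h
        exact Int.natCast_dvd.1 h
      rw [h, if_neg (by norm_num), if_pos hdv]
      norm_num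
    · rw [h, if_pos rfl]
      split_ifs <;> norm_num
    · rw [h, if_neg (by norm_num)]
      split_ifs <;> norm_num
  have h3 := sum_le_sum h2
  rw [sum_add_distrib, sum_add_distrib, ← mul_sum, ← sum_filter, ← sum_filter, sum_const, sum_const, sum_const,
    ← h1] at h3
  simp only [nsmul_eq_mul, mul_one] at h3
  have h4 : (((oq Set.univ y).filter (fun p => p ∣ a.natAbs)).card : ℝ) ≤ 2 * Real.log |(a : ℝ)| := by
    have h5 : (oq Set.univ y).filter (fun p => p ∣ a.natAbs) ⊆ a.natAbs.primeFactors := by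
      intro p hp
      rw [mem_filter] at hp
      exact Nat.mem_primeFactors.2 ⟨hpr p hp.1, hp.2, Int.natAbs_ne_zero.2 ha⟩
    have h6 := Pool.Agent.Y549.SP.SPL.card_primeFactors_le a.natAbs (Int.natAbs_ne_zero.2 ha)
    rw [Nat.cast_natAbs, Int.cast_abs] at h6
    exact (Nat.cast_le.2 (card_le_card h5)).trans h6
  have h5 := neg_abs_le (js Set.univ a y : ℝ)
  linarith

lemma ncard_le_oq (y : ℕ) : ((primesIn Set.univ y).ncard : ℝ) ≤ (oq Set.univ y).card + 1 := by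
  classical
  have hsub : primesIn Set.univ y ⊆ ((oq Set.univ y ∪ {2} : Finset ℕ) : Set ℕ) := by
    intro p hp
    obtain ⟨hp1, hp2, hp3⟩ := hp
    rw [mem_coe, mem_union, mem_singleton]
    by_cases hp4 : p = 2
    · exact Or.inr hp4
    · left
      simp only [oq, mem_filter, mem_range]
      exact ⟨by omega, hp1, hp4, hp3⟩
  have h1 := Set.ncard_le_ncard hsub (Finset.finite_toSet _)
  rw [Set.ncard_coe_finset] at h1
  have h2 := h1.trans (card_union_le _ _)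
  rw [card_singleton] at h2
  exact_mod_cast h2

set_option maxHeartbeats 4000000 in
/-- many squarefree products of split primes -/
theorem many_split (k : ℕ) (A c θ₀ θ δ : ℝ) (hc : 0 < c) (hθ₀ : 0 < θ₀) (hθ : θ ≤ 1 / 2) (hδ : 0 < δ) (hδθ : δ < θ) :
    ∀ᶠ X : ℕ in atTop, ∀ a D j : ℤ, j ≠ 0 → 4 * a = D * j ^ 2 → (|(a : ℝ)| ≤ (X : ℝ) ^ k) → (X : ℝ) ^ θ₀ ≤ |(D : ℝ)| →
      (∀ y : ℕ, Real.log (8 * X) ^ A ≤ y → (y : ℝ) ≤ (X : ℝ) ^ c →
        |(js Set.univ a y : ℝ)| ≤ 1 / 4 * (primesIn Set.univ y).ncard) →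
      |(D : ℝ)| ^ (θ - δ) ≤ (MM D ⌊|(D : ℝ)| ^ (θ - δ / 2)⌋₊).card := by
  classical
  obtain ⟨u, hu⟩ : ∃ u : ℝ, u = θ - δ / 2 := ⟨_, rfl⟩
  have hu0 : 0 < u := by rw [hu]; linarith
  have hu1 : u ≤ 1 / 2 := by rw [hu]; linarith
  obtain ⟨r, hr⟩ : ∃ r : ℕ, r = ⌈((k : ℝ) + 1) / c⌉₊ + 1 := ⟨_, rfl⟩
  have hr1 : 1 ≤ r := by omega
  have hr0 : (0 : ℝ) < r := by exact_mod_cast hr1
  have hrc : ((k : ℝ) + 1) / c ≤ r := by
    rw [hr]
    push_cast
    have := Nat.le_ceil (((k : ℝ) + 1) / c)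
    linarith
  obtain ⟨v, hv⟩ : ∃ v : ℝ, v = θ₀ * (u / r) := ⟨_, rfl⟩
  have hv0 : 0 < v := by rw [hv]; positivity
  obtain ⟨κ₀, hκ₀, y₀, hy₀⟩ := Pool.Agent.Y549.SP.Fin2.thick_univ
  obtain ⟨y₁, hy₁⟩ := eventually_atTop.1 (Pool.Agent.Y549.SP.CNT2.step1 one_pos hκ₀ hy₀)
  obtain ⟨κ, hκdef⟩ : ∃ κ : ℝ, κ = min κ₀ 1 / 4 := ⟨_, rfl⟩
  have hκ : 0 < κ := by
    have := lt_min hκ₀ one_pos
    rw [hκdef]
    positivity
  rw [← hκdef] at hy₁
  -- asymptotics
  have hXt : Tendsto (fun X : ℕ => (X : ℝ)) atTop atTop := tendsto_natCast_atTop_atTop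
  have ev1 : ∀ᶠ X : ℝ in atTop, Real.log (8 * X) ^ A ≤ X ^ v / 2 := by
    have h1 : Tendsto (fun X : ℝ => 8 * X) atTop atTop := tendsto_id.const_mul_atTop (by norm_num)
    have h2 := (isLittleO_log_rpow_rpow_atTop A hv0).bound (c := 1 / (2 * 8 ^ v)) (by positivity)
    filter_upwards [h1.eventually h2, eventually_ge_atTop 1] with X h3 h4
    have h5 : 0 ≤ Real.log (8 * X) ^ A := Real.rpow_nonneg (Real.log_nonneg (by linarith)) _
    rw [Real.norm_of_nonneg h5, Real.norm_of_nonneg (by positivity), Real.mul_rpow (by norm_num) (by linarith)] at h3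
    calc Real.log (8 * X) ^ A ≤ 1 / (2 * 8 ^ v) * (8 ^ v * X ^ v) := h3
      _ = X ^ v / 2 := by field_simp
  have ev2 : ∀ᶠ X : ℝ in atTop, 8 * k * Real.log X + 1 + 16 * r ≤ κ / 2 * (X ^ v / 2) ^ (1 / 2 : ℝ) := by
    have h1 := (isLittleO_log_rpow_atTop (r := v / 2) (by positivity)).bound
      (c := κ / 2 * (1 / 2) ^ (1 / 2 : ℝ) / (2 * (8 * k + 1))) (by positivity)
    have h2 : Tendsto (fun X : ℝ => X ^ (v / 2)) atTop atTop := tendsto_rpow_atTop (by positivity)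
    filter_upwards [h1, h2.eventually_ge_atTop ((1 + 16 * r) / (κ / 2 * (1 / 2) ^ (1 / 2 : ℝ) / 2)),
      eventually_ge_atTop 1] with X h3 h4 h5
    have hX0 : 0 < X := by linarith
    have hl : 0 ≤ Real.log X := Real.log_nonneg h5
    rw [Real.norm_of_nonneg hl, Real.norm_of_nonneg (by positivity), div_mul_eq_mul_div, le_div_iff₀ (by positivity)] at h3
    rw [div_le_iff₀ (by positivity)] at h4
    have e1 : (X ^ v / 2) ^ (1 / 2 : ℝ) = (1 / 2) ^ (1 / 2 : ℝ) * X ^ (v / 2) := by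
      rw [show X ^ v / 2 = (1 / 2) * X ^ v by ring, Real.mul_rpow (by norm_num) (by positivity),
        ← Real.rpow_mul hX0.le]
      congr 2
      ring
    rw [e1]
    have h6 : 8 * k * Real.log X ≤ (8 * k + 1) * Real.log X := by nlinarith
    nlinarith
  have ev3 : ∀ᶠ P : ℝ in atTop, (r.factorial : ℝ) * (16 / κ * Real.log P) ^ r ≤ P ^ (δ / 2) := by
    have h1 := (isLittleO_log_rpow_rpow_atTop (r : ℝ) (show 0 < δ / 2 by positivity)).bound
      (c := 1 / ((r.factorial : ℝ) * (16 / κ) ^ r)) (by positivity)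
    filter_upwards [h1, eventually_ge_atTop 1] with P h2 h3
    have hl : 0 ≤ Real.log P := Real.log_nonneg h3
    rw [Real.norm_of_nonneg (by positivity), Real.norm_of_nonneg (by positivity), Real.rpow_natCast] at h2
    rw [mul_pow]
    calc (r.factorial : ℝ) * ((16 / κ) ^ r * Real.log P ^ r) =
        (r.factorial : ℝ) * (16 / κ) ^ r * Real.log P ^ r := by ring
      _ ≤ (r.factorial : ℝ) * (16 / κ) ^ r * (1 / ((r.factorial : ℝ) * (16 / κ) ^ r) * P ^ (δ / 2)) :=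
          mul_le_mul_of_nonneg_left h2 (by positivity)
      _ = P ^ (δ / 2) := by field_simp
  have ev4 : ∀ᶠ X : ℝ in atTop, max (max 16 (y₁ + 2 : ℝ)) (2 : ℝ) ≤ X ^ v / 2 :=
    ((tendsto_rpow_atTop hv0).atTop_div_const (by norm_num)).eventually_ge_atTop _
  have hPt : Tendsto (fun X : ℕ => (X : ℝ) ^ θ₀) atTop atTop := (tendsto_rpow_atTop hθ₀).comp hXt
  obtain ⟨P₀, hP₀⟩ := eventually_atTop.1 ev3
  filter_upwards [hXt.eventually ev1, hXt.eventually ev2, hXt.eventually ev4, hPt.eventually_ge_atTop (max P₀ 3),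
    eventually_ge_atTop 4] with X e1 e2 e4 e5 e6 a D j hj h4 haX hDX hjs
  have hX4 : (4 : ℝ) ≤ X := by exact_mod_cast e6
  have hX0 : (0 : ℝ) < X := by linarith
  have hX1 : (1 : ℝ) ≤ X := by linarith
  obtain ⟨P, hP⟩ : ∃ P : ℝ, P = |(D : ℝ)| := ⟨_, rfl⟩
  rw [← hP] at hDX ⊢
  have hP3 : 3 ≤ P := ((le_max_right _ _).trans e5).trans hDX
  have hP0 : 0 < P := by linarith
  have hP1 : 1 ≤ P := by linarith
  have hE3 := hP₀ P (((le_max_left _ _).trans e5).trans hDX)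
  have hlogP : 0 < Real.log P := Real.log_pos (by linarith)
  have hD0 : D ≠ 0 := by
    rintro rfl
    rw [Int.cast_zero, abs_zero] at hP
    linarith
  have ha0 : a ≠ 0 := by
    rintro rfl
    rw [mul_zero] at h4
    exact (mul_ne_zero hD0 (pow_ne_zero 2 hj)) h4.symm
  -- the size of `D`
  have hPX : P ≤ (X : ℝ) ^ ((k : ℝ) + 1) := by
    have h1 : |(D : ℝ)| * (j : ℝ) ^ 2 = 4 * |(a : ℝ)| := by
      have h2 : (4 : ℝ) * a = D * (j : ℝ) ^ 2 := by exact_mod_cast h4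
      have h3 : |(4 : ℝ) * a| = |(D : ℝ) * (j : ℝ) ^ 2| := by rw [h2]
      rw [abs_mul, abs_mul, abs_of_pos (by norm_num : (0 : ℝ) < 4), abs_of_nonneg (sq_nonneg (j : ℝ))] at h3
      exact h3.symm
    have h2 : (1 : ℝ) ≤ (j : ℝ) ^ 2 := by
      have : 0 < j ^ 2 := by positivity
      exact_mod_cast (by omega : 1 ≤ j ^ 2)
    have h3 : |(D : ℝ)| ≤ |(D : ℝ)| * (j : ℝ) ^ 2 := le_mul_of_one_le_right (abs_nonneg _) h2
    rw [Real.rpow_add_one hX0.ne', Real.rpow_natCast, hP]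
    nlinarith [pow_pos hX0 k]
  obtain ⟨y, hy⟩ : ∃ y : ℕ, y = ⌊P ^ (u / r)⌋₊ := ⟨_, rfl⟩
  have hPu0 : 0 ≤ P ^ (u / r) := Real.rpow_nonneg hP0.le _
  have hyle : (y : ℝ) ≤ P ^ (u / r) := by rw [hy]; exact Nat.floor_le hPu0
  have hylt : P ^ (u / r) < y + 1 := by rw [hy]; exact Nat.lt_floor_add_one _
  have hXP : (X : ℝ) ^ v ≤ P ^ (u / r) := by
    rw [hv, Real.rpow_mul hX0.le]
    exact Real.rpow_le_rpow (by positivity) hDX (by positivity)
  have hbig2 : (2 : ℝ) ≤ (X : ℝ) ^ v / 2 := (le_max_right _ _).trans e4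
  have hbig1 : (y₁ + 2 : ℝ) ≤ (X : ℝ) ^ v / 2 := ((le_max_right _ _).trans (le_max_left _ _)).trans e4
  have hbig16 : (16 : ℝ) ≤ (X : ℝ) ^ v / 2 := ((le_max_left _ _).trans (le_max_left _ _)).trans e4
  have hyhalf : P ^ (u / r) / 2 ≤ y := by linarith
  have hyX : (X : ℝ) ^ v / 2 ≤ y := by linarith
  have hy16 : (16 : ℝ) ≤ y := by linarith
  have hy0 : (0 : ℝ) < y := by linarith
  have hyy1 : y₁ ≤ y := by
    have : (y₁ : ℝ) ≤ y := by linarith
    exact_mod_cast this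
  have hyXc : (y : ℝ) ≤ (X : ℝ) ^ c := by
    refine hyle.trans ?_
    calc P ^ (u / r) ≤ ((X : ℝ) ^ ((k : ℝ) + 1)) ^ (u / r) := Real.rpow_le_rpow hP0.le hPX (by positivity)
      _ = (X : ℝ) ^ (((k : ℝ) + 1) * (u / r)) := (Real.rpow_mul hX0.le _ _).symm
      _ ≤ (X : ℝ) ^ c := by
          refine Real.rpow_le_rpow_of_exponent_le hX1 ?_
          rw [div_le_iff₀ hc] at hrc
          rw [← mul_div_assoc, div_le_iff₀ hr0]
          nlinarith [Nat.cast_nonneg (α := ℝ) k]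
  have hj1 := hjs y (e1.trans hyX) hyXc
  have hoq := hy₁ y hyy1
  rw [Real.rpow_one] at hoq
  have hly : 0 < Real.log (y : ℝ) := Real.log_pos (by linarith)
  obtain ⟨Z, hZ⟩ : ∃ Z : ℝ, Z = ((oq Set.univ y).card : ℝ) := ⟨_, rfl⟩
  rw [← hZ] at hoq
  have hZ1 : κ / 2 * ((X : ℝ) ^ v / 2) ^ (1 / 2 : ℝ) ≤ Z := by
    have h1 : Real.log (y : ℝ) ≤ 2 * (y : ℝ) ^ (1 / 2 : ℝ) := by
      have := Real.log_le_rpow_div hy0.le (show (0 : ℝ) < 1 / 2 by norm_num)
      linarith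
    have h2 : ((X : ℝ) ^ v / 2) ^ (1 / 2 : ℝ) ≤ (y : ℝ) ^ (1 / 2 : ℝ) :=
      Real.rpow_le_rpow (by positivity) hyX (by norm_num)
    have h3 : (y : ℝ) = (y : ℝ) ^ (1 / 2 : ℝ) * (y : ℝ) ^ (1 / 2 : ℝ) := by
      rw [← Real.rpow_add hy0]
      norm_num
    have h4 : 0 < (y : ℝ) ^ (1 / 2 : ℝ) := Real.rpow_pos_of_pos hy0 _
    have hZ0 : 0 ≤ Z := by rw [hZ]; exact Nat.cast_nonneg _
    have h5 : κ * ((y : ℝ) ^ (1 / 2 : ℝ) * (y : ℝ) ^ (1 / 2 : ℝ)) ≤ Z * (2 * (y : ℝ) ^ (1 / 2 : ℝ)) := by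
      rw [← h3]
      exact hoq.trans (mul_le_mul_of_nonneg_left h1 hZ0)
    have h6 : κ * (y : ℝ) ^ (1 / 2 : ℝ) ≤ 2 * Z := by
      have h7 : (κ * (y : ℝ) ^ (1 / 2 : ℝ)) * (y : ℝ) ^ (1 / 2 : ℝ) ≤ (2 * Z) * (y : ℝ) ^ (1 / 2 : ℝ) := by
        linarith
      exact le_of_mul_le_mul_right h7 h4
    nlinarith
  have hloga : Real.log |(a : ℝ)| ≤ k * Real.log X := by
    have h1 : 0 < |(a : ℝ)| := abs_pos.2 (by exact_mod_cast ha0)
    have h2 := Real.log_le_log h1 haX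
    rwa [Real.log_pow] at h2
  have hco := count_one ha0 y
  have hnc := ncard_le_oq y
  rw [← hZ] at hco hnc
  obtain ⟨Pc, hPc⟩ : ∃ Pc : ℕ, Pc = ((oq Set.univ y).filter (fun p => jacobiSym a p = 1)).card := ⟨_, rfl⟩
  rw [← hPc] at hco
  have hPcZ : Z / 4 ≤ Pc := by linarith
  have hmm : Pc.choose r ≤ (MM D ⌊P ^ (θ - δ / 2)⌋₊).card := by
    rw [hPc]
    refine mm_lower h4 (y := y) ?_ ?_
    · intro p hp
      rw [mem_filter] at hp
      have hp' := hp.1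
      simp only [oq, mem_filter, mem_range] at hp'
      exact ⟨hp'.2.1, hp'.2.2.1, by omega, hp.2⟩
    · rw [← hu]
      refine Nat.le_floor ?_
      push_cast
      calc (y : ℝ) ^ r ≤ (P ^ (u / r)) ^ r := pow_le_pow_left₀ hy0.le hyle r
        _ = P ^ u := by
            rw [← Real.rpow_natCast, ← Real.rpow_mul hP0.le, div_mul_cancel₀ _ hr0.ne']
  have hch : (Pc / 2 : ℝ) ^ r ≤ (r.factorial : ℝ) * (Pc.choose r : ℝ) := by
    have h1 : (((Pc + 1 - r : ℕ) : ℝ)) ^ r ≤ (r.factorial : ℝ) * (Pc.choose r : ℝ) := by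
      have h0 := Nat.pow_le_choose (α := ℝ) r Pc
      rw [div_le_iff₀ (by positivity)] at h0
      rw [mul_comm]
      exact_mod_cast h0
    refine le_trans (pow_le_pow_left₀ (by positivity) ?_ r) h1
    have h2 : (4 * r : ℝ) ≤ Z / 4 := by
      have : 0 ≤ 8 * k * Real.log (X : ℝ) := by
        have := Real.log_nonneg hX1
        positivity
      linarith
    have h3 : (4 * r : ℝ) ≤ Pc := h2.trans hPcZ
    have h4 : r ≤ Pc + 1 := by
      have : (r : ℝ) ≤ Pc := by linarith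
      have : r ≤ Pc := by exact_mod_cast this
      omega
    rw [Nat.cast_sub h4]
    push_cast
    linarith
  -- the final estimate
  have hlogy : Real.log (y : ℝ) ≤ Real.log P := by
    refine Real.log_le_log hy0 (hyle.trans ?_)
    calc P ^ (u / r) ≤ P ^ (1 : ℝ) := by
          refine Real.rpow_le_rpow_of_exponent_le hP1 ?_
          rw [div_le_one hr0]
          have : (1 : ℝ) ≤ r := by exact_mod_cast hr1
          linarith
      _ = P := Real.rpow_one P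
  have hPcl : P ^ (u / r) ≤ (16 / κ * Real.log P) * (Pc / 2 : ℝ) := by
    have h1 : κ * y ≤ Z * Real.log P := by
      have hZ0 : 0 ≤ Z := by rw [hZ]; exact Nat.cast_nonneg _
      exact hoq.trans (mul_le_mul_of_nonneg_left hlogy hZ0)
    have h2 : κ * P ^ (u / r) ≤ 8 * Real.log P * Pc := by
      have h3 : Z * Real.log P ≤ 4 * Pc * Real.log P := by nlinarith
      nlinarith
    calc P ^ (u / r) = (1 / κ) * (κ * P ^ (u / r)) := by field_simp
      _ ≤ (1 / κ) * (8 * Real.log P * Pc) := mul_le_mul_of_nonneg_left h2 (by positivity)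
      _ = _ := by ring
  have h7 : P ^ u ≤ (16 / κ * Real.log P) ^ r * ((r.factorial : ℝ) * (Pc.choose r : ℝ)) := by
    calc P ^ u = (P ^ (u / r)) ^ r := by
          rw [← Real.rpow_natCast, ← Real.rpow_mul hP0.le, div_mul_cancel₀ _ hr0.ne']
      _ ≤ ((16 / κ * Real.log P) * (Pc / 2 : ℝ)) ^ r := pow_le_pow_left₀ hPu0 hPcl r
      _ = (16 / κ * Real.log P) ^ r * (Pc / 2 : ℝ) ^ r := mul_pow _ _ _
      _ ≤ _ := mul_le_mul_of_nonneg_left hch (by positivity)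
  have h8 : P ^ u ≤ P ^ (δ / 2) * (Pc.choose r : ℝ) := by
    calc P ^ u ≤ ((r.factorial : ℝ) * (16 / κ * Real.log P) ^ r) * (Pc.choose r : ℝ) := by linarith
      _ ≤ _ := mul_le_mul_of_nonneg_right hE3 (Nat.cast_nonneg _)
  have h9 : P ^ (θ - δ) ≤ (Pc.choose r : ℝ) := by
    have h10 : P ^ (θ - δ) * P ^ (δ / 2) = P ^ u := by
      rw [← Real.rpow_add hP0, hu]
      congr 1
      ring
    have h11 : 0 < P ^ (δ / 2) := Real.rpow_pos_of_pos hP0 _
    rw [← h10] at h8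
    have h12 : P ^ (θ - δ) * P ^ (δ / 2) ≤ (Pc.choose r : ℝ) * P ^ (δ / 2) := by linarith
    exact le_of_mul_le_mul_right h12 h11
  refine h9.trans ?_
  exact_mod_cast hmm

end Pool.Agent.U265.MT
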